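import Pool.Agent.Lib.MP_659547_nt.Three

/-!
# The `q`-congruence for the sum with factor `[8k+1]`

Full proof of the conjectured divisibility of
`S_n(q) = ∑_{k<n} q^{4k} [8k+1] A_k(q)` by `[n]` for `n ≡ 1 (mod 4)` and by `[n] Φ_n(q)^2`
for `n ≡ 3 (mod 4)`.
-/

set_option autoImplicit false

namespace Pool.Agent.Results.MP_659547_nt.QCongruenceFull

open Finset Polynomial Pool.Agent.Lib.MP_659547_nt

/-- The indeterminate `q`, as an element of the field `ℚ(q)`. -/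
noncomputable def q : RatFunc ℚ := RatFunc.X

/-- The `q`-integer `[m] = (1 - q^m) / (1 - q)` in `ℚ(q)`. -/
noncomputable def qInt (m : ℕ) : RatFunc ℚ := (1 - q ^ m) / (1 - q)

/-- The `q`-shifted factorial `(a; p)_k = (1 - a)(1 - a p) ⋯ (1 - a p^{k-1})`. -/
noncomputable def qPoch (a p : RatFunc ℚ) (k : ℕ) : RatFunc ℚ := ∏ i ∈ range k, (1 - a * p ^ i)

/-- `A_k(q) = (q;q^4)_k^6 / (q^4;q^4)_k^6 · (q^2;q^2)_{2k} / (q;q^2)_{2k}`. -/
noncomputable def A (k : ℕ) : RatFunc ℚ :=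
  qPoch q (q ^ 4) k ^ 6 / qPoch (q ^ 4) (q ^ 4) k ^ 6 *
    (qPoch (q ^ 2) (q ^ 2) (2 * k) / qPoch q (q ^ 2) (2 * k))

/-- `S_n(q) = ∑_{0 ≤ k ≤ n-1} q^{4k} [8k+1] A_k(q)`. -/
noncomputable def S (n : ℕ) : RatFunc ℚ :=
  ∑ k ∈ range n, q ^ (4 * k) * qInt (8 * k + 1) * A k

lemma one_sub_ne (m : ℕ) (hm : 0 < m) : (1 : RatFunc ℚ) - q ^ m ≠ 0 := by
  intro h
  exact X_pow_ne_one m hm (by unfold q at h; linear_combination -h)

lemma qPoch_two (a : ℕ) (k : ℕ) : qPoch (q ^ a) (q ^ 2) (2 * k) =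
    ∏ i ∈ range k, ((1 - q ^ a * q ^ (4 * i)) * (1 - q ^ (a + 2) * q ^ (4 * i))) := by
  unfold qPoch
  induction k with
  | zero => simp
  | succ k ih =>
    rw [prod_range_succ, show 2 * (k + 1) = 2 * k + 1 + 1 by ring, prod_range_succ,
      prod_range_succ, ih, mul_assoc]
    congr 2
    · rw [← pow_mul]; congr 3; ring
    · rw [← pow_mul, ← pow_add, ← pow_add]; congr 2; ring

lemma A_eq (k : ℕ) : A k = ∏ i ∈ range k, (gam q (q ^ (4 * i)) * (phi q 1 (q ^ (4 * i))) ^ 2) := by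
  unfold A
  have h1 := qPoch_two 2 k
  have h2 := qPoch_two 1 k
  rw [pow_one] at h2
  rw [h1, h2]
  unfold qPoch
  rw [← prod_pow, ← prod_pow, ← prod_div_distrib, ← prod_div_distrib, ← prod_mul_distrib]
  apply prod_congr rfl
  intro i _
  unfold gam phi
  have e0 : (q ^ 4) ^ i = q ^ (4 * i) := by rw [← pow_mul]
  rw [e0, inv_one, mul_one, mul_one]
  have n1 : 1 - q * q ^ (4 * i) ≠ 0 := by
    rw [← pow_succ']; exact one_sub_ne _ (by omega)
  have n4 : 1 - q ^ 4 * q ^ (4 * i) ≠ 0 := by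
    rw [← pow_add]; exact one_sub_ne _ (by omega)
  have n3 : 1 - q ^ 3 * q ^ (4 * i) ≠ 0 := by
    rw [← pow_add]; exact one_sub_ne _ (by omega)
  norm_num
  generalize (1 - q * q ^ (4 * i)) = a at *
  generalize (1 - q ^ 4 * q ^ (4 * i)) = b at *
  generalize (1 - q ^ 3 * q ^ (4 * i)) = c at *
  generalize (1 - q ^ 2 * q ^ (4 * i)) = d at *
  field_simp

lemma S_eq (n : ℕ) : S n = ∑ k ∈ range n, cc RatFunc.X k * (f 0 k) ^ 2 := by
  unfold S
  apply sum_congr rfl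
  intro k _
  rw [A_eq, prod_mul_distrib, prod_pow]
  have h1 : f 0 k = ∏ i ∈ range k, phi q 1 (q ^ (4 * i)) := by
    unfold f ff q
    rw [zpow_zero]
  have h2 : cc RatFunc.X k = q ^ (4 * k) * qInt (8 * k + 1) *
      ∏ i ∈ range k, gam q (q ^ (4 * i)) := by
    unfold cc qInt q
    rw [div_eq_mul_inv]
  rw [h1, h2]
  ring

lemma cyc_dvd {n d : ℕ} (hn : n % 2 = 1) (hd : d ∈ n.divisors.erase 1) :
    cyclotomic d ℚ ∣ (S n).num := by
  rw [mem_erase, Nat.mem_divisors] at hd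
  obtain ⟨hd1, hdn, hn0⟩ := hd
  have hd2 : 1 < d := by
    have := Nat.pos_of_dvd_of_pos hdn (by omega); omega
  have hodd : d % 2 = 1 := by
    obtain ⟨c, rfl⟩ := hdn
    by_contra h
    have : d % 2 = 0 := by omega
    rw [Nat.mul_mod, this] at hn; simp at hn
  obtain ⟨m, hm⟩ := hdn
  have h1 := sum_dv_one hd2 hodd m
  rw [mul_comm m d, ← hm, ← S_eq] at h1
  have h2 := dv_to_dvd hd2 (e := 1) (by exact_mod_cast h1)
  rwa [pow_one] at h2

/-- **Main theorem.**  For odd `n`: if `n ≡ 1 (mod 4)` then `[n] = 1 + q + ⋯ + q^{n-1}` divides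
(the numerator in lowest terms of) `S_n(q)`, and if `n ≡ 3 (mod 4)` then `[n] Φ_n(q)^2` does. -/
theorem result (n : ℕ) (hn : n % 2 = 1) :
    (n % 4 = 1 → (∑ i ∈ range n, (X : ℚ[X]) ^ i) ∣ (S n).num) ∧
    (n % 4 = 3 → (∑ i ∈ range n, (X : ℚ[X]) ^ i) * (cyclotomic n ℚ) ^ 2 ∣ (S n).num) := by
  have hgeom := prod_cyclotomic_eq_geom_sum (by omega : 0 < n) ℚ
  constructor
  · intro _
    rw [← hgeom]
    apply Finset.prod_dvd_of_coprime
    · intro a _ b _ hab
      exact cyclotomic.isCoprime_rat hab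
    · intro d hd
      exact cyc_dvd hn hd
  · intro h3
    have hmem : n ∈ n.divisors.erase 1 := by
      rw [mem_erase, Nat.mem_divisors]; exact ⟨by omega, dvd_rfl, by omega⟩
    rw [← hgeom, ← Finset.mul_prod_erase _ _ hmem]
    have hcube : (cyclotomic n ℚ) ^ 3 ∣ (S n).num := by
      have h1 := sum_dv_three (by omega : 1 < n) hn h3
      rw [← S_eq] at h1
      exact dv_to_dvd (by omega : 1 < n) (e := 3) (by exact_mod_cast h1)
    have hrest : ∏ i ∈ (n.divisors.erase 1).erase n, cyclotomic i ℚ ∣ (S n).num := by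
      apply Finset.prod_dvd_of_coprime
      · intro a _ b _ hab
        exact cyclotomic.isCoprime_rat hab
      · intro d hd
        exact cyc_dvd hn (mem_of_mem_erase hd)
    have hcop : IsCoprime ((cyclotomic n ℚ) ^ 3)
        (∏ i ∈ (n.divisors.erase 1).erase n, cyclotomic i ℚ) := by
      apply IsCoprime.pow_left
      apply IsCoprime.prod_right
      intro i hi
      exact cyclotomic.isCoprime_rat (ne_of_mem_erase hi).symm
    have := hcop.mul_dvd hcube hrest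
    convert this using 1
    ring

end Pool.Agent.Results.MP_659547_nt.QCongruenceFull
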